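import Mathlib
import Pool.Agent.W684.CF.Stm
import Pool.Agent.H31R3.YorNull
import Pool.Agent.H20R3.Yor.Bart

/-!
# Project CF (MP_145df4_lc): the combinatorial statement implies the inequalities
-/

set_option autoImplicit false

namespace Pool.Agent.W540.CFL

open MeasureTheory Cardinal Filter
open scoped ENNReal Cardinal
open Pool.Agent.W684.CF

lemma coin_eq : coin = (PMF.uniformOfFintype Bool).toMeasure := by
  refine Measure.ext_of_singleton fun a => ?_
  rw [PMF.toMeasure_apply_singleton _ _ (measurableSet_singleton a)]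
  cases a <;> simp [coin]

lemma mu_eq : mu = Pool.Agent.H20R3.Yor.coin := by
  unfold mu Pool.Agent.H20R3.Yor.coin
  congr 1
  funext _
  exact coin_eq

lemma mu_eq' : mu = Pool.Agent.H31R3.Yor.mu := rfl

lemma sig_null : SigmaIdeal NullSets := by
  refine ⟨?_, ?_, ?_⟩
  · show mu ∅ = 0
    simp
  · intro A hA B hB
    exact measure_mono_null hB hA
  · intro f hf
    exact measure_iUnion_null hf

lemma union_mem {X : Type} {J : Set (Set X)} (hJ : SigmaIdeal J) {A B : Set X} (hA : A ∈ J)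
    (hB : B ∈ J) : A ∪ B ∈ J := by
  have h := hJ.2.2 (fun n => if n = 0 then A else B) (by
    intro n
    split_ifs
    · exact hA
    · exact hB)
  refine hJ.2.1 _ h _ ?_
  rintro z (hz | hz)
  · exact Set.mem_iUnion.mpr ⟨0, by simpa using hz⟩
  · exact Set.mem_iUnion.mpr ⟨1, by simpa using hz⟩

lemma exists_surj {α β : Type} [Nonempty α] (h : #α ≤ #β) : ∃ e : β → α, Function.Surjective e := by
  obtain ⟨i⟩ := Cardinal.le_def α β |>.mp h
  exact ⟨Function.invFun i, Function.invFun_surjective i.injective⟩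

/-- **AMB.** -/
theorem ambient (hC : S_CHAIN) (hM : S_MOD) : S_AMB := by
  intro K L Ω C _ _ hphi
  obtain ⟨hNC1, hNC2, hDom, hPart⟩ := hphi
  -- nonemptiness
  have hKne : Nonempty K := by
    obtain ⟨y, hy⟩ := hNC1
    obtain ⟨l, -⟩ := hy (fun _ _ _ => False) (by
      intro _ n t ht
      obtain ⟨v, hv⟩ := Finset.card_pos.mp (lt_of_le_of_lt (Nat.zero_le _) ht)
      exact ⟨v, hv, fun h => h⟩)
    exact ⟨l⟩
  -- (i)
  have h1 : addNum NullSets ≤ #K := by
    obtain ⟨y, hy⟩ := hNC1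
    suffices hmem : #(Set.range fun k => Pool.Agent.H20R3.Yor.nullG (y k)) ∈
        {c | ∃ F : Set (Set Cant), F ⊆ NullSets ∧ ⋃₀ F ∉ NullSets ∧ #F = c} from
      (csInf_le' hmem).trans mk_range_le
    refine ⟨Set.range fun k => Pool.Agent.H20R3.Yor.nullG (y k), ?_, ?_, rfl⟩
    · rintro _ ⟨k, rfl⟩
      show mu _ = 0
      rw [mu_eq]
      exact Pool.Agent.H20R3.Yor.nullG_null _
    · intro hnull
      have hnull' : mu (⋃₀ Set.range fun k => Pool.Agent.H20R3.Yor.nullG (y k)) = 0 := hnull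
      rw [mu_eq] at hnull'
      obtain ⟨φ, hφ1, hφ2⟩ := Pool.Agent.H20R3.Yor.bart hnull'
      obtain ⟨l, hl⟩ := hy (fun _ n v => v ∈ φ n) (by
        intro _ n t ht
        dsimp only at ht
        by_contra hcon
        push Not at hcon
        have := Finset.card_le_card (fun v hv => hcon v hv : t ⊆ φ n)
        have h3 := hφ1 n
        omega)
      obtain ⟨n1, hn1⟩ := hφ2 (y l) (Set.subset_sUnion_of_mem ⟨l, rfl⟩)
      obtain ⟨n, hn, hn'⟩ := hl () n1
      exact hn' (hn1 n hn)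
  -- (ii)
  have h2 : #Ω < cofNum NullSets := by
    by_contra hcon
    push Not at hcon
    have hne : {c | ∃ F : Set (Set Cant), F ⊆ NullSets ∧ (∀ A ∈ NullSets, ∃ B ∈ F, A ⊆ B) ∧
        #F = c}.Nonempty :=
      ⟨_, NullSets, subset_rfl, fun A hA => ⟨A, hA, subset_rfl⟩, rfl⟩
    obtain ⟨F, hF, hcof, hcard⟩ := csInf_mem hne
    have hFΩ : #F ≤ #Ω := by
      rw [hcard]
      exact hcon
    obtain ⟨B0, hB0, -⟩ := hcof ∅ sig_null.1
    have : Nonempty F := ⟨⟨B0, hB0⟩⟩
    obtain ⟨B, hB⟩ := exists_surj hFΩ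
    have hbart : ∀ β : Ω, ∃ φ : ℕ → Finset ℕ, (∀ n, (φ n).card ≤ 2 ^ (3 * n)) ∧
        ∀ x : ℕ → ℕ, Pool.Agent.H20R3.Yor.nullG x ⊆ (B β : Set Cant) →
          ∃ n1, ∀ n ≥ n1, x n ∈ φ n := by
      intro β
      refine Pool.Agent.H20R3.Yor.bart ?_
      rw [← mu_eq]
      exact hF (B β).2
    choose φ hφ1 hφ2 using hbart
    obtain ⟨y, hy⟩ := hNC2
    obtain ⟨l, hl⟩ := hy (fun β n v => v ∈ φ β n) (by
      intro β n t ht
      dsimp only at ht
      by_contra hcon
      push Not at hcon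
      have := Finset.card_le_card (fun v hv => hcon v hv : t ⊆ φ β n)
      have h3 := hφ1 β n
      omega)
    have hnull : Pool.Agent.H20R3.Yor.nullG (y l) ∈ NullSets := by
      show mu _ = 0
      rw [mu_eq]
      exact Pool.Agent.H20R3.Yor.nullG_null _
    obtain ⟨B', hB', hsub⟩ := hcof _ hnull
    obtain ⟨β, hβ⟩ := hB ⟨B', hB'⟩
    obtain ⟨n1, hn1⟩ := hφ2 β (y l) (by rw [hβ]; exact hsub)
    obtain ⟨n, hn, hn'⟩ := hl β n1
    exact hn' (hn1 n hn)
  -- (iii)
  obtain ⟨γ₀, hγ₀, hγ₀le⟩ : ∃ γ ∈ ChainLengths NullSets, γ ≤ Ordinal.type (α := Ω) (· < ·) := by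
    obtain ⟨f, hf⟩ := hDom
    obtain ⟨Jm, hJ1, hJ2, hJ3⟩ := hM
    refine hC Cant Ω NullSets sig_null (fun β => Jm (f β)) (fun β => (hJ1 _).1)
      (fun β => (hJ1 _).2.2) ?_
    intro A hA
    obtain ⟨g, hg⟩ := hJ3 A hA
    obtain ⟨β, hβ⟩ := hf g
    exact ⟨β, fun β' hβ' => hJ2 g (f β') (hβ β' hβ') hg⟩
  have h3 : cofin NullSets < (cofNum NullSets).ord := by
    refine lt_of_le_of_lt ((csInf_le' hγ₀).trans hγ₀le) ?_
    rw [Cardinal.lt_ord, Ordinal.card_type]
    exact h2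
  -- (iv)
  have h4 : ∀ γ ∈ ChainLengths NullSets, (#K).ord < γ := by
    intro γ hγ
    by_contra hcon
    push Not at hcon
    obtain ⟨hγ0, hγs, J, hJ1, hJ2, hJ3⟩ := hγ
    have hcard : #γ.ToType ≤ #K := by
      rw [Cardinal.mk_toType]
      exact Cardinal.card_le_of_le_ord hcon
    have : Nonempty γ.ToType := Ordinal.nonempty_toType_iff.mpr hγ0.ne'
    obtain ⟨e', he'⟩ := exists_surj hcard
    obtain ⟨e, he1, he2⟩ : ∃ e : K → Ordinal.{0}, (∀ k, e k < γ) ∧ ∀ α < γ, ∃ k, e k = α := by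
      refine ⟨fun k => Ordinal.typein (α := γ.ToType) (· < ·) (e' k), fun k =>
        Ordinal.typein_lt_self _, ?_⟩
      intro α hα
      obtain ⟨i, hi⟩ := Ordinal.typein_surj (α := γ.ToType) (· < ·) (o := α) (by
        rwa [Ordinal.type_toType])
      obtain ⟨k, hk⟩ := he' i
      exact ⟨k, by rw [← hi, ← hk]⟩
    have hA : ∀ k, ∃ A : Set Cant, A ∈ NullSets ∧ A ∉ J (e k) := by
      intro k
      have h := hJ2 (e k) (e k + 1) (lt_add_of_pos_right _ zero_lt_one) (hγs _ (he1 k))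
      obtain ⟨A, hA1, hA2⟩ := Set.exists_of_ssubset h
      exact ⟨A, (hJ3 A).mpr ⟨_, hγs _ (he1 k), hA1⟩, hA2⟩
    choose A hA1 hA2 using hA
    obtain ⟨Cc, hCc, hcode⟩ := Pool.Agent.H31R3.Yor.null_code
    have hx : ∀ k, ∃ x : ℕ → ℕ, A k ⊆ {z | ∃ᶠ n in atTop, z ∈ Cc n (x n)} :=
      fun k => hcode (A k) (hA1 k)
    choose x hx using hx
    set D : K → (ℕ → Prop) → Set Cant := fun k b => {z | ∃ᶠ n in atTop, b n ∧ z ∈ Cc n (x k n)}
      with hD
    obtain ⟨d, hd⟩ := hPart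
    set E : K → C → Prop := fun k c => D k (d c) ∉ J (e k) with hE
    obtain ⟨S, hS1, hS2⟩ := hd x E
    have hfin : ∀ n, {v | S n v}.Finite := by
      intro n
      by_contra hinf
      obtain ⟨t, ht1, ht2⟩ := Set.Infinite.exists_subset_card_eq hinf (n + 1)
      obtain ⟨v, hv, hv'⟩ := hS1 n t (by dsimp only; omega)
      exact hv' (ht1 hv)
    set T : ℕ → Finset ℕ := fun n => (hfin n).toFinset with hT
    have hTc : ∀ n, (T n).card ≤ n := by
      intro n
      by_contra hlt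
      push Not at hlt
      obtain ⟨v, hv, hv'⟩ := hS1 n (T n) hlt
      exact hv' ((hfin n).mem_toFinset.mp hv)
    set AS : Set Cant := {z | ∃ᶠ n in atTop, ∃ v ∈ T n, z ∈ Cc n v} with hAS
    have hASnull : AS ∈ NullSets := Pool.Agent.H31R3.Yor.null_slalom hCc hTc
    obtain ⟨α, hα, hASα⟩ := (hJ3 AS).mp hASnull
    obtain ⟨k, hk⟩ := he2 α hα
    obtain ⟨c, N, hcN⟩ := hS2 k
    have hJk : SigmaIdeal (J (e k)) := hJ1 _ (he1 k)
    set b : ℕ → Prop := fun n => (d c n ↔ E k c) with hb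
    have hsub : D k b ⊆ AS := by
      intro z hz
      have hz' : ∃ᶠ n in atTop, b n ∧ z ∈ Cc n (x k n) := hz
      have hev : ∀ᶠ n in atTop, N ≤ n := eventually_ge_atTop N
      refine (hz'.and_eventually hev).mono ?_
      rintro n ⟨⟨h1, h2⟩, h3⟩
      exact ⟨x k n, (hfin n).mem_toFinset.mpr (hcN n h3 h1), h2⟩
    have hmem : D k b ∈ J (e k) := by
      rw [hk]
      exact (hJ1 α hα).2.1 AS hASα _ hsub
    by_cases hEc : E k c
    · have hbd : b = d c := by
        funext n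
        simp [hb, hEc]
      rw [hbd] at hmem
      exact hEc hmem
    · have hbd : b = fun n => ¬ d c n := by
        funext n
        simp [hb, hEc]
      have hdc : D k (d c) ∈ J (e k) := by
        by_contra h
        exact hEc h
      have hun := union_mem hJk hdc hmem
      refine hA2 k (hJk.2.1 _ hun _ ?_)
      intro z hz
      have hz' : ∃ᶠ n in atTop, z ∈ Cc n (x k n) := hx k hz
      have hz2 : ∃ᶠ n in atTop, (d c n ∧ z ∈ Cc n (x k n)) ∨ (b n ∧ z ∈ Cc n (x k n)) := by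
        refine hz'.mono ?_
        intro n hn
        by_cases hdn : d c n
        · exact Or.inl ⟨hdn, hn⟩
        · refine Or.inr ⟨?_, hn⟩
          rw [hbd]
          exact hdn
      rcases Filter.frequently_or_distrib.mp hz2 with h | h
      · exact Or.inl h
      · exact Or.inr h
  refine ⟨?_, h3⟩
  have hmem : cofin NullSets ∈ ChainLengths NullSets := csInf_mem ⟨γ₀, hγ₀⟩
  exact lt_of_le_of_lt (Cardinal.ord_le_ord.mpr h1) (h4 _ hmem)

end Pool.Agent.W540.CFL
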